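import Pool.Agent.Work.MP_37ce0f_lc.A.Main

namespace Pool.Agent.Results.MP_37ce0f_lc.AllEmbeddings
open Pool.Agent.Work.MP_37ce0f_lc.A

/-- The planar graph `G m` on `2 m` vertices needs cubic area in every planar straight-line
monotone grid drawing, whatever the embedding, and cubic area suffices. -/
theorem result (m : ℕ) (hm : 3 ≤ m) :
    (∀ (p : Fin m × Bool → ℤ × ℤ) (W H : ℕ), Planar (G m) p → IsMono (G m) p → InBox p W H →
      m ^ 3 ≤ 10 ^ 24 * (W * H)) ∧
    ∃ p : Fin m × Bool → ℤ × ℤ, Planar (G m) p ∧ IsMono (G m) p ∧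
      InBox p (10 * m ^ 2) (4 * m) :=
  ⟨fun _ _ _ => lower hm, pos m, planar m, isMono m, inBox m⟩

end Pool.Agent.Results.MP_37ce0f_lc.AllEmbeddings
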