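import Pool.Agent.Work.MP_37ce0f_lc.Q.Main

namespace Pool.Agent.Results.MP_37ce0f_lc.Perimeter
open Pool.Agent.Work.MP_37ce0f_lc.W

/-- Every connected outerplane graph has a straight-line planar embedding-preserving monotone
grid drawing with width plus height at most `n + 10`, so of area at most `(n + 10)^2 / 4`. -/
theorem result (n : ℕ) (G : SimpleGraph (Fin n)) (hc : G.Connected) (h : NoCross G) :
    ∃ (D : Drawing n) (W H : ℕ), Planar G D ∧ Preserves G D ∧ IsMono G D ∧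
      (∀ u v, D.bends u v = []) ∧ InBox G D W H ∧ W + H ≤ n + 10 ∧
      4 * (W * H) ≤ (n + 10) ^ 2 := by
  obtain ⟨D, W, H, h1, h2, h3, h4, h5, h6⟩ := Pool.Agent.Work.MP_37ce0f_lc.Q.upperB hc h
  refine ⟨D, W, H, h1, h2, h3, h4, h5, h6, le_trans ?_ (Nat.pow_le_pow_left h6 2)⟩
  zify
  nlinarith [sq_nonneg ((W : ℤ) - H)]

end Pool.Agent.Results.MP_37ce0f_lc.Perimeter
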