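import Pool.Agent.Work.MP_37ce0f_lc.W.Upper
import Pool.Agent.Work.MP_37ce0f_lc.W.Lower

namespace Pool.Agent.Results.MP_37ce0f_lc.ShortSide
open Pool.Agent.Work.MP_37ce0f_lc.W

/-- The short side of monotone grid drawings of outerplane graphs is `(1/3 + o(1)) n`:
width `n/3 + O(n/K + log n)` is possible together with height `O(K n)`, and some tree needs
`(n-1)/3` in both directions. -/
theorem result :
    (∀ (K n : ℕ), 1 ≤ K → ∀ G : SimpleGraph (Fin n), G.Connected → NoCross G →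
      ∃ D : Drawing n, Planar G D ∧ Preserves G D ∧ IsMono G D ∧
        (∀ u v, (D.bends u v).length ≤ 2) ∧ (G.IsAcyclic → ∀ u v, D.bends u v = []) ∧
        InBox G D ((n - 1) / 3 + 20 * n / K + 2 * Nat.log 2 n + 4) (20 * K * n)) ∧
    (∀ n : ℕ, 1 ≤ n → ∃ G : SimpleGraph (Fin n), G.IsTree ∧ NoCross G ∧
      ∀ (D : Drawing n) (W H : ℕ), IsMono G D → InBox G D W H →
        (n - 1) / 3 ≤ W ∧ (n - 1) / 3 ≤ H) :=
  ⟨fun K n hK G hc h => upper K n hK G hc h, lower⟩

end Pool.Agent.Results.MP_37ce0f_lc.ShortSide
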