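import Pool.Agent.Work.MP_37ce0f_lc.Q.Main

namespace Pool.Agent.Results.MP_37ce0f_lc.SquareUp
open Pool.Agent.Work.MP_37ce0f_lc.W

/-- Every plane tree has a straight-line planar embedding-preserving monotone grid drawing in a
square of side `(1/2 + o(1)) n`. -/
theorem result (K n : ℕ) (hK : 1 ≤ K) (G : SimpleGraph (Fin n)) (hc : G.IsTree)
    (h : NoCross G) : ∃ D : Drawing n, Planar G D ∧ Preserves G D ∧ IsMono G D ∧
      (∀ u v, D.bends u v = []) ∧
      InBox G D (n / 2 + n / K + 20 * (K + 1) ^ 3 + 10) (n / 2 + n / K + 20 * (K + 1) ^ 3 + 10) :=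
  Pool.Agent.Work.MP_37ce0f_lc.Q.upperA K hK hc h

end Pool.Agent.Results.MP_37ce0f_lc.SquareUp
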